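import Pool.Agent.Helper71.UN.StD

/-!
# Project UN, module EPP: elementary paths
-/

set_option autoImplicit false

open Set Filter Topology Matrix
open scoped ContDiff ComplexConjugate

noncomputable section

namespace Pool.Agent.Helper30.UN

open Pool.Agent.Helper71.UN

theorem hEPP (hs : StSTP) (hf : StFRO) (hr : StROT) : StEPP := by
  intro n al u a b e hA he
  obtain ⟨s1, -, s3, s4, s5, -⟩ := hs
  obtain ⟨r1, r2, r3, r4, r5, -, -⟩ := hr n u a b e hA.ne he
  have f3 : fr (1 : Matrix (Fin n) (Fin n) ℝ) u = pu u := (hf n al 1 u).2.2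
  have f3' : fr (1 : Matrix (Fin n) (Fin n) ℝ) (sw u a b) = pu (sw u a b) :=
    (hf n al 1 (sw u a b)).2.2
  have hok : ∀ θ, OKm al (fr (rt a b e θ) u) := by
    intro θ
    refine (hf n al (rt a b e θ) u).2.1 (r1 θ) ?_
    intro x c hne
    unfold rt at hne
    rw [Matrix.of_apply] at hne
    split_ifs at hne with h1 h2 h3 h4 h5
    · rw [h1.1, h1.2]
      exact hA.self a
    · rw [h2.1, h2.2]
      exact hA.self b
    · rw [h3.1, h3.2]
      exact hA.ab
    · rw [h4.1, h4.2]
      exact hA.ba
    · rw [h5]
      exact hA.self c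
    · exact absurd rfl hne
  have hang : ContDiff ℝ ∞ (fun s : ℝ => Real.pi / 2 * stp s) := contDiff_const.mul s1
  have hrt : ∀ x c, ContDiff ℝ ∞ (fun s : ℝ => rt a b e (Real.pi / 2 * stp s) x c) := by
    intro x c
    unfold rt
    simp only [Matrix.of_apply]
    split_ifs
    · exact Real.contDiff_cos.comp hang
    · exact Real.contDiff_cos.comp hang
    · exact contDiff_const.mul (Real.contDiff_sin.comp hang)
    · exact (contDiff_const.mul (Real.contDiff_sin.comp hang)).neg
    · exact contDiff_const
    · exact contDiff_const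
  refine ⟨⟨?_, ?_, ?_, ?_⟩, ?_, ?_, ?_, ?_⟩
  · intro l x y
    have h1 : (fun s : ℝ => ep u a b e s l x y) = fun s : ℝ => ∑ c, if u c = l then
        rt a b e (Real.pi / 2 * stp s) x c * rt a b e (Real.pi / 2 * stp s) y c else 0 := by
      funext s
      exact (hf n al (rt a b e (Real.pi / 2 * stp s)) u).1 l x y
    rw [h1]
    refine ContDiff.sum fun c _ => ?_
    by_cases hc : u c = l
    · simp only [hc, if_true]
      exact (hrt x c).mul (hrt y c)
    · simp only [hc, if_false]
      exact contDiff_const
  · intro s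
    exact hok _
  · intro s hs0
    unfold ep
    rw [s3 s hs0, mul_zero, r2, f3]
  · intro s hs1
    unfold ep
    rw [s4 s hs1, mul_one]
    have h := r3 1
    rw [one_mul, f3'] at h
    exact h
  · funext s
    unfold rv ep
    rw [s5 s, mul_sub, mul_one]
    exact r4 _
  · funext s
    unfold ep
    rw [r5]
  · refine ⟨hA.ne, ?_, ?_, ?_⟩
    · intro c
      unfold sw
      by_cases h1 : c = a
      · rw [h1, Equiv.swap_apply_left]
        exact hA.ba
      · by_cases h2 : c = b
        · rw [h2, Equiv.swap_apply_right]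
          exact hA.ab
        · rw [Equiv.swap_apply_of_ne_of_ne h1 h2]
          exact hA.self c
    · unfold sw
      rw [Equiv.swap_apply_left]
      exact hA.self b
    · unfold sw
      rw [Equiv.swap_apply_right]
      exact hA.self a
  · rw [← f3, ← r2]
    exact hok 0

end Pool.Agent.Helper30.UN
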